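import Mathlib
import Pool.Agent.PDT.Stmts2

set_option autoImplicit false

namespace Pool.Agent.PDT.H43

open Pool.Agent.PDT Pool.Agent.PDM

/-- the triple of natural numbers -/
def toN {t : ℕ} (e : Fin t × Fin t × Fin t) : ℕ × ℕ × ℕ := ((e.1 : ℕ), (e.2.1 : ℕ), (e.2.2 : ℕ))

theorem toN_inj {t : ℕ} : Function.Injective (toN (t := t)) := by
  rintro ⟨a, b, c⟩ ⟨a', b', c'⟩ h
  simp only [toN, Prod.mk.injEq] at h
  obtain ⟨h1, h2, h3⟩ := h
  have e1 : a = a' := Fin.ext h1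
  have e2 : b = b' := Fin.ext h2
  have e3 : c = c' := Fin.ext h3
  rw [e1, e2, e3]

theorem mem_toIns {t : ℕ} {L : List (ℕ × ℕ × ℕ)} {e : Fin t × Fin t × Fin t} :
    e ∈ toIns t L ↔ toN e ∈ L := by
  unfold toIns toN
  rw [Finset.mem_filter]
  exact ⟨fun h => h.2, fun h => ⟨Finset.mem_univ _, h⟩⟩

theorem img_univ {t : ℕ} {S : Ins t} (hS : S.card = t) (f : Fin t × Fin t × Fin t → Fin t)
    (hf : ∀ p ∈ S, ∀ p' ∈ S, f p = f p' → p = p') (i : Fin t) : ∃ p ∈ S, f p = i := by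
  have h1 : (S.image f).card = t := by
    rw [Finset.card_image_of_injOn fun p hp p' hp' h => hf p hp p' hp' h, hS]
  have h2 : S.image f = Finset.univ := by
    apply Finset.eq_univ_of_card
    rw [h1, Fintype.card_fin]
  have h3 : i ∈ S.image f := by rw [h2]; exact Finset.mem_univ i
  obtain ⟨p, hp, hpi⟩ := Finset.mem_image.mp h3
  exact ⟨p, hp, hpi⟩

theorem mat : MatStmt := by
  classical
  intro t L hL
  constructor
  · rintro ⟨M, hML, hM1, hM2, hM3⟩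
    set S : Ins t := Finset.univ.filter fun e => toN e ∈ M with hS
    have memS : ∀ {e : Fin t × Fin t × Fin t}, e ∈ S ↔ toN e ∈ M := by
      intro e
      rw [hS, Finset.mem_filter]
      exact ⟨fun h => h.2, fun h => ⟨Finset.mem_univ _, h⟩⟩
    have i1 : ∀ p ∈ S, ∀ p' ∈ S, p.1 = p'.1 → p = p' := by
      intro p hp p' hp' h
      obtain ⟨e, -, hu⟩ := hM1 p.1 p.1.2
      exact toN_inj ((hu _ ⟨memS.mp hp, rfl⟩).trans
        (hu _ ⟨memS.mp hp', congrArg Fin.val h.symm⟩).symm)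
    have i2 : ∀ p ∈ S, ∀ p' ∈ S, p.2.1 = p'.2.1 → p = p' := by
      intro p hp p' hp' h
      obtain ⟨e, -, hu⟩ := hM2 p.2.1 p.2.1.2
      exact toN_inj ((hu _ ⟨memS.mp hp, rfl⟩).trans
        (hu _ ⟨memS.mp hp', congrArg Fin.val h.symm⟩).symm)
    have i3 : ∀ p ∈ S, ∀ p' ∈ S, p.2.2 = p'.2.2 → p = p' := by
      intro p hp p' hp' h
      obtain ⟨e, -, hu⟩ := hM3 p.2.2 p.2.2.2
      exact toN_inj ((hu _ ⟨memS.mp hp, rfl⟩).trans
        (hu _ ⟨memS.mp hp', congrArg Fin.val h.symm⟩).symm)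
    refine ⟨S, ?_, ?_, ?_⟩
    · intro e he
      exact mem_toIns.mpr (hML _ (memS.mp he))
    · have h1 : S.image (fun p => p.1) = Finset.univ := by
        apply Finset.eq_univ_iff_forall.mpr
        intro i
        obtain ⟨e, ⟨he, hei⟩, -⟩ := hM1 i i.2
        obtain ⟨l1, l2, l3⟩ := hL.2 e (hML e he)
        rw [Finset.mem_image]
        refine ⟨(⟨e.1, l1⟩, ⟨e.2.1, l2⟩, ⟨e.2.2, l3⟩), memS.mpr he, Fin.ext hei⟩
      have h2 := Finset.card_image_of_injOn (s := S) (f := fun p => p.1)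
        fun p hp p' hp' h => i1 p hp p' hp' h
      rw [h1, Finset.card_univ, Fintype.card_fin] at h2
      exact h2.symm
    · intro p hp p' hp' hne
      exact ⟨fun h => hne (i1 p hp p' hp' h), fun h => hne (i2 p hp p' hp' h),
        fun h => hne (i3 p hp p' hp' h)⟩
  · rintro ⟨S, hSL, hSt, hS⟩
    have i1 : ∀ p ∈ S, ∀ p' ∈ S, p.1 = p'.1 → p = p' := fun p hp p' hp' h => by
      by_contra hne
      exact (hS p hp p' hp' hne).1 h
    have i2 : ∀ p ∈ S, ∀ p' ∈ S, p.2.1 = p'.2.1 → p = p' := fun p hp p' hp' h => by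
      by_contra hne
      exact (hS p hp p' hp' hne).2.1 h
    have i3 : ∀ p ∈ S, ∀ p' ∈ S, p.2.2 = p'.2.2 → p = p' := fun p hp p' hp' h => by
      by_contra hne
      exact (hS p hp p' hp' hne).2.2 h
    refine ⟨S.image toN, ?_, ?_, ?_, ?_⟩
    · intro e he
      obtain ⟨p, hp, rfl⟩ := Finset.mem_image.mp he
      exact mem_toIns.mp (hSL hp)
    · intro i hi
      obtain ⟨p, hp, hpi⟩ := img_univ hSt (fun p => p.1) i1 ⟨i, hi⟩
      refine ⟨toN p, ⟨Finset.mem_image_of_mem _ hp, congrArg Fin.val hpi⟩, ?_⟩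
      rintro e ⟨he, hei⟩
      obtain ⟨p', hp', rfl⟩ := Finset.mem_image.mp he
      rw [i1 p' hp' p hp (Fin.ext (hei.trans (congrArg Fin.val hpi).symm))]
    · intro i hi
      obtain ⟨p, hp, hpi⟩ := img_univ hSt (fun p => p.2.1) i2 ⟨i, hi⟩
      refine ⟨toN p, ⟨Finset.mem_image_of_mem _ hp, congrArg Fin.val hpi⟩, ?_⟩
      rintro e ⟨he, hei⟩
      obtain ⟨p', hp', rfl⟩ := Finset.mem_image.mp he
      rw [i2 p' hp' p hp (Fin.ext (hei.trans (congrArg Fin.val hpi).symm))]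
    · intro i hi
      obtain ⟨p, hp, hpi⟩ := img_univ hSt (fun p => p.2.2) i3 ⟨i, hi⟩
      refine ⟨toN p, ⟨Finset.mem_image_of_mem _ hp, congrArg Fin.val hpi⟩, ?_⟩
      rintro e ⟨he, hei⟩
      obtain ⟨p', hp', rfl⟩ := Finset.mem_image.mp he
      rw [i3 p' hp' p hp (Fin.ext (hei.trans (congrArg Fin.val hpi).symm))]

end Pool.Agent.PDT.H43
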