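import Mathlib
import Pool.Agent.Helper43_PDT.Mat

set_option autoImplicit false

namespace Pool.Agent.PDT.H43

open Pool.Agent.PDT Pool.Agent.PDM

theorem map_sum_single {α : Type} (s : Finset α) (F : α → ℕ) :
    s.val.map F = ∑ a ∈ s, ({F a} : Multiset ℕ) := by
  rw [Finset.sum_eq_multiset_sum]
  have := Multiset.sum_map_singleton (s.val.map F)
  rw [Multiset.map_map] at this
  exact this.symm

theorem coe_flatMap (t : ℕ) (g : ℕ → List ℕ) :
    (((List.range t).flatMap g : List ℕ) : Multiset ℕ) = ∑ i : Fin t, ((g i : List ℕ) :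
      Multiset ℕ) := by
  rw [← Finset.sum_range (fun i => ((g i : List ℕ) : Multiset ℕ)), Finset.sum_eq_multiset_sum]
  rw [Finset.range_val, Multiset.range]
  rw [← Multiset.coe_bind]
  rfl

theorem map_sum_type {α β : Type} [Fintype α] [Fintype β] (F : α ⊕ β → ℕ) :
    (Finset.univ : Finset (α ⊕ β)).val.map F =
      (Finset.univ : Finset α).val.map (fun a => F (Sum.inl a)) +
        (Finset.univ : Finset β).val.map (fun b => F (Sum.inr b)) := by
  rw [map_sum_single, map_sum_single, map_sum_single, Fintype.sum_sum_type]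

theorem ins_val {t : ℕ} {L : List (ℕ × ℕ × ℕ)} (hL : Ok3 t L) :
    (toIns t L).val.map toN = (L : Multiset (ℕ × ℕ × ℕ)) := by
  classical
  have h1 : (toIns t L).map ⟨toN, toN_inj⟩ = ⟨(L : Multiset (ℕ × ℕ × ℕ)),
      Multiset.coe_nodup.mpr hL.1⟩ := by
    ext e
    rw [Finset.mem_map, Finset.mem_mk, Multiset.mem_coe]
    constructor
    · rintro ⟨p, hp, rfl⟩
      exact mem_toIns.mp hp
    · intro he
      obtain ⟨l1, l2, l3⟩ := hL.2 e he
      exact ⟨(⟨e.1, l1⟩, ⟨e.2.1, l2⟩, ⟨e.2.2, l3⟩), mem_toIns.mpr he, rfl⟩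
  have h2 := congrArg Finset.val h1
  exact h2

theorem ins_map {t : ℕ} {L : List (ℕ × ℕ × ℕ)} (hL : Ok3 t L) (g : ℕ × ℕ × ℕ → ℕ) :
    (toIns t L).val.map (fun p => g (toN p)) = ((L.map g : List ℕ) : Multiset ℕ) := by
  rw [← Multiset.map_coe, ← ins_val hL, Multiset.map_map]
  rfl

theorem ins_card {t : ℕ} {L : List (ℕ × ℕ × ℕ)} (hL : Ok3 t L) : (toIns t L).card = L.length := by
  have := congrArg Multiset.card (ins_val hL)
  rw [Multiset.card_map, Multiset.coe_card] at this
  exact this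

theorem vA_eq {t : ℕ} (k : Fin 3) (i : Fin t) : vA k i = vAN t k i := rfl

theorem vC_eq {t : ℕ} (p : Fin t × Fin t × Fin t) : vC p = vCN t (toN p) := rfl

theorem sA_eq (t : ℕ) : sA t = sAN t := by
  unfold sA sAN
  rw [Finset.sum_comm]
  have : ((List.range t).map fun i => vAN t 0 i + vAN t 1 i + vAN t 2 i).sum =
      ∑ i ∈ Finset.range t, (vAN t 0 i + vAN t 1 i + vAN t 2 i) := by
    rw [Finset.sum_eq_multiset_sum, Finset.range_val, Multiset.range, Multiset.map_coe,
      Multiset.sum_coe]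
  rw [this, Finset.sum_range]
  refine Finset.sum_congr rfl fun i _ => ?_
  rw [Fin.sum_univ_three]
  rfl

theorem vD_eq (t : ℕ) : vD t = vDN t := by
  unfold vD vDN
  rw [sA_eq]

theorem sC_eq {t : ℕ} {L : List (ℕ × ℕ × ℕ)} (hL : Ok3 t L) : sC (toIns t L) = sCN t L := by
  unfold sC sCN
  rw [Finset.sum_eq_multiset_sum, ← Multiset.sum_coe, ← ins_map hL]
  rfl

theorem vZ_eq {t : ℕ} {L : List (ℕ × ℕ × ℕ)} (hL : Ok3 t L) : vZ (toIns t L) = vZN t L := by
  unfold vZ vZN
  rw [sC_eq hL, vD_eq, sA_eq]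

theorem sc_eq {t : ℕ} {L : List (ℕ × ℕ × ℕ)} (hL : Ok3 t L) : sc (toIns t L) = scN t L := by
  unfold sc scN
  rw [ins_card hL]

theorem n4_eq {t : ℕ} {L : List (ℕ × ℕ × ℕ)} (hL : Ok3 t L) : n4 (toIns t L) = n4N t L := by
  unfold n4 n4N
  rw [sC_eq hL, vD_eq, sc_eq hL, ins_card hL]

theorem n3_eq {t : ℕ} {L : List (ℕ × ℕ × ℕ)} (hL : Ok3 t L) : n3 (toIns t L) = n3N t L := by
  unfold n3 n3N
  rw [n4_eq hL, ins_card hL]

theorem lst : LstStmt := by
  classical
  intro t L hL
  unfold seqL seqm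
  rw [n4_eq hL, n3_eq hL]
  simp only [← Multiset.coe_add, Multiset.coe_replicate]
  congr 2
  rw [map_sum_type, map_sum_type, map_sum_type, map_sum_type]
  -- elements
  have e1 : (Finset.univ : Finset (Fin 3 × Fin t)).val.map
      (fun a => 2 * dgr (τ := toIns t L) (Sum.inl a) -
        (if mrk (τ := toIns t L) (Sum.inl a) then 1 else 0)) =
      (((List.range t).flatMap fun i =>
        [2 * (scN t L * vAN t 0 i) - 1, 2 * (scN t L * vAN t 1 i) - 1,
          2 * (scN t L * vAN t 2 i)] : List ℕ) : Multiset ℕ) := by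
    rw [coe_flatMap, map_sum_single, Fintype.sum_prod_type_right]
    refine Finset.sum_congr rfl fun i _ => ?_
    rw [Fin.sum_univ_three]
    simp only [dgr, mrk, sc_eq hL, vA_eq]
    rfl
  have e2 : (Finset.univ : Finset ↥(toIns t L)).val.map
      (fun a => 2 * dgr (τ := toIns t L) (Sum.inr (Sum.inl a)) -
        (if mrk (τ := toIns t L) (Sum.inr (Sum.inl a)) then 1 else 0)) =
      ((L.map fun e => 2 * (scN t L * vCN t e - 10) : List ℕ) : Multiset ℕ) := by
    rw [← ins_map hL]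
    have h3 : ((Finset.univ : Finset ↥(toIns t L)).val.map fun a => a.1) = (toIns t L).val := by
      rw [Finset.univ_eq_attach]
      exact Multiset.attach_map_val _
    rw [← h3, Multiset.map_map]
    refine Multiset.map_congr rfl fun a _ => ?_
    simp only [dgr, mrk, sc_eq hL, vC_eq, Function.comp]
    simp
  have e3 : (Finset.univ : Finset (Fin 2 × Bool)).val.map
      (fun a => 2 * dgr (τ := toIns t L) (Sum.inr (Sum.inr (Sum.inl a))) -
        (if mrk (τ := toIns t L) (Sum.inr (Sum.inr (Sum.inl a))) then 1 else 0)) =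
      (([2 * scN t L - 1, 2 * (scN t L + 3), 2 * (scN t L * 3) - 1,
        2 * (scN t L * 3 + 3)] : List ℕ) : Multiset ℕ) := by
    rw [map_sum_single, Fintype.sum_prod_type, Fin.sum_univ_two, Fintype.sum_bool,
      Fintype.sum_bool]
    simp only [dgr, mrk, sc_eq hL]
    simp only [if_true, Bool.not_true, Bool.not_false, if_false, Bool.false_eq_true, one_ne_zero,
      Nat.sub_zero, mul_one, add_zero, Fin.isValue]
    rw [add_comm ({2 * (scN t L + 3)} : Multiset ℕ), add_comm ({2 * (scN t L * 3 + 3)} : Multiset ℕ)]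
    rfl
  have e4 : (Finset.univ : Finset (Fin (4 * t + 4))).val.map
      (fun a => 2 * dgr (τ := toIns t L) (Sum.inr (Sum.inr (Sum.inr (Sum.inl a)))) -
        (if mrk (τ := toIns t L) (Sum.inr (Sum.inr (Sum.inr (Sum.inl a)))) then 1 else 0)) =
      Multiset.replicate (4 * t + 4) (2 * (scN t L * vDN t) - 1) := by
    simp only [dgr, mrk, sc_eq hL, vD_eq, if_true]
    rw [Multiset.map_const']
    congr 1
    simp
  have e5 : (Finset.univ : Finset Unit).val.map
      (fun a => 2 * dgr (τ := toIns t L) (Sum.inr (Sum.inr (Sum.inr (Sum.inr a)))) -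
        (if mrk (τ := toIns t L) (Sum.inr (Sum.inr (Sum.inr (Sum.inr a)))) then 1 else 0)) =
      (([2 * (scN t L * vZN t L - (14 * L.length + 2 * t + 20))] : List ℕ) : Multiset ℕ) := by
    simp only [dgr, mrk, sc_eq hL, vZ_eq hL, ins_card hL]
    rfl
  rw [e1, e2, e3, e4, e5]
  simp only [add_assoc]

end Pool.Agent.PDT.H43
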