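import Mathlib
import Pool.Agent.PDT.Stmts

set_option autoImplicit false

namespace Pool.Agent.PDT.H43

open Pool.Agent.PDT

theorem pair_inj {p i j i' j' : ℕ} (hj : j < p) (hj' : j' < p) (h : i * p + j = i' * p + j') :
    i = i' ∧ j = j' := by
  have hi : i = i' := by
    rcases lt_trichotomy i i' with h1 | h1 | h1
    · exfalso
      have : (i + 1) * p ≤ i' * p := Nat.mul_le_mul_right p h1
      rw [add_mul, one_mul] at this
      omega
    · exact h1
    · exfalso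
      have : (i' + 1) * p ≤ i * p := Nat.mul_le_mul_right p h1
      rw [add_mul, one_mul] at this
      omega
  subst hi
  exact ⟨rfl, by omega⟩

theorem tip_inj {p i j i' j' : ℕ} {b b' : Bool} (hj : j < p) (hj' : j' < p)
    (h : tip p i j b = tip p i' j' b') : i = i' ∧ j = j' ∧ b = b' := by
  have hb : b = b' ∧ i * p + j = i' * p + j' := by
    unfold tip at h
    cases b <;> cases b' <;> simp at h ⊢ <;> omega
  obtain ⟨h1, h2⟩ := pair_inj hj hj' hb.2
  exact ⟨h1, h2, hb.1⟩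

theorem lt_sq {p i j : ℕ} (hi : i < p) (hj : j < p) : i * p + j < p * p := by
  have : (i + 1) * p ≤ p * p := Nat.mul_le_mul_right p hi
  rw [add_mul, one_mul] at this
  omega

theorem tip_lt {p i j : ℕ} (b : Bool) (hi : i < p) (hj : j < p) : tip p i j b < 2 * (p * p) := by
  have := lt_sq hi hj
  unfold tip
  split_ifs <;> omega

theorem mem_tipTrips {F : List (List (ℕ × Bool))} {p i j : ℕ} {b : Bool} {e : ℕ × ℕ × ℕ} :
    e ∈ tipTrips F p i j b ↔ (Lit F j i b ∧ e = (tip p i j b, p * p + j, p * p + j)) ∨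
      ∃ k < p * (p - 1), e = (tip p i j b, p * p + p + k, p * p + p + k) := by
  classical
  unfold tipTrips
  rw [List.mem_append]
  refine or_congr ?_ ?_
  · split_ifs with h
    · simp [h]
    · simp [h]
  · rw [List.mem_map]
    constructor
    · rintro ⟨k, hk, rfl⟩
      exact ⟨k, List.mem_range.mp hk, rfl⟩
    · rintro ⟨k, hk, rfl⟩
      exact ⟨k, List.mem_range.mpr hk, rfl⟩

theorem mem_trips {F : List (List (ℕ × Bool))} {p : ℕ} {e : ℕ × ℕ × ℕ} :
    e ∈ trips F p ↔ ∃ i < p, ∃ j < p, e = (tip p i j false, i * p + j, i * p + j) ∨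
      e = (tip p i j true, i * p + (j + 1) % p, i * p + j) ∨
      (∃ b, Lit F j i b ∧ e = (tip p i j b, p * p + j, p * p + j)) ∨
      ∃ b, ∃ k < p * (p - 1), e = (tip p i j b, p * p + p + k, p * p + p + k) := by
  unfold trips
  simp only [List.mem_flatMap, List.mem_range, List.mem_append, List.mem_cons, List.not_mem_nil,
    or_false, mem_tipTrips]
  constructor
  · rintro ⟨i, hi, j, hj, (h | h) | (h | h) | (h | h)⟩
    · exact ⟨i, hi, j, hj, Or.inl h⟩
    · exact ⟨i, hi, j, hj, Or.inr (Or.inl h)⟩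
    · exact ⟨i, hi, j, hj, Or.inr (Or.inr (Or.inl ⟨_, h⟩))⟩
    · exact ⟨i, hi, j, hj, Or.inr (Or.inr (Or.inr ⟨_, h⟩))⟩
    · exact ⟨i, hi, j, hj, Or.inr (Or.inr (Or.inl ⟨_, h⟩))⟩
    · exact ⟨i, hi, j, hj, Or.inr (Or.inr (Or.inr ⟨_, h⟩))⟩
  · rintro ⟨i, hi, j, hj, h | h | ⟨b, h⟩ | ⟨b, h⟩⟩
    · exact ⟨i, hi, j, hj, Or.inl (Or.inl h)⟩
    · exact ⟨i, hi, j, hj, Or.inl (Or.inr h)⟩
    · cases b
      · exact ⟨i, hi, j, hj, Or.inr (Or.inl (Or.inl h))⟩
      · exact ⟨i, hi, j, hj, Or.inr (Or.inr (Or.inl h))⟩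
    · cases b
      · exact ⟨i, hi, j, hj, Or.inr (Or.inl (Or.inr h))⟩
      · exact ⟨i, hi, j, hj, Or.inr (Or.inr (Or.inr h))⟩

end Pool.Agent.PDT.H43
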