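import Mathlib
import Pool.Agent.Helper43_PDT.Mem

set_option autoImplicit false

namespace Pool.Agent.PDT.H43

open Pool.Agent.PDT

theorem sq_eq {p k : ℕ} (hk : k < p * (p - 1)) : p * p + p + k < 2 * (p * p) := by
  have hp : 0 < p := by
    rcases Nat.eq_zero_or_pos p with h | h
    · subst h; simp at hk
    · exact h
  obtain ⟨q, rfl⟩ : ∃ q, p = q + 1 := ⟨p - 1, by omega⟩
  have : q + 1 - 1 = q := by omega
  rw [this] at hk
  nlinarith

theorem tipTrips_fst {F : List (List (ℕ × Bool))} {p i j : ℕ} {b : Bool} {e : ℕ × ℕ × ℕ}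
    (h : e ∈ tipTrips F p i j b) : e.1 = tip p i j b ∧ p * p ≤ e.2.2 := by
  rcases mem_tipTrips.mp h with ⟨-, rfl⟩ | ⟨k, -, rfl⟩
  · exact ⟨rfl, Nat.le_add_right _ _⟩
  · exact ⟨rfl, by show p * p ≤ p * p + p + k; omega⟩

theorem tipTrips_nodup (F : List (List (ℕ × Bool))) {p i j : ℕ} (hj : j < p) (b : Bool) :
    (tipTrips F p i j b).Nodup := by
  classical
  unfold tipTrips
  rw [List.nodup_append]
  refine ⟨?_, ?_, ?_⟩
  · split_ifs <;> simp
  · refine List.Nodup.map ?_ List.nodup_range
    intro k k' h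
    simp only [Prod.mk.injEq] at h
    omega
  · intro a ha c hc hac
    subst hac
    split_ifs at ha with h
    · rw [List.mem_singleton] at ha
      subst ha
      rw [List.mem_map] at hc
      obtain ⟨k, -, hk⟩ := hc
      simp only [Prod.mk.injEq] at hk
      omega
    · simp at ha

theorem block_nodup (F : List (List (ℕ × Bool))) {p i j : ℕ} (hi : i < p) (hj : j < p) :
    ([(tip p i j false, i * p + j, i * p + j), (tip p i j true, i * p + (j + 1) % p, i * p + j)] ++
      (tipTrips F p i j false ++ tipTrips F p i j true)).Nodup := by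
  have hne : tip p i j false ≠ tip p i j true := fun h =>
    absurd (tip_inj hj hj h).2.2 (by simp)
  have hs := lt_sq hi hj
  rw [List.nodup_append]
  refine ⟨?_, ?_, ?_⟩
  · rw [List.nodup_cons]
    refine ⟨?_, by simp⟩
    rw [List.mem_singleton]
    intro h
    exact hne (congrArg Prod.fst h)
  · rw [List.nodup_append]
    refine ⟨tipTrips_nodup F hj _, tipTrips_nodup F hj _, ?_⟩
    intro a ha c hc hac
    subst hac
    exact hne ((tipTrips_fst ha).1.symm.trans (tipTrips_fst hc).1)
  · intro a ha c hc hac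
    subst hac
    have h1 : p * p ≤ a.2.2 := by
      rcases List.mem_append.mp hc with h | h
      · exact (tipTrips_fst h).2
      · exact (tipTrips_fst h).2
    have h2 : a.2.2 = i * p + j := by
      simp only [List.mem_cons, List.not_mem_nil, or_false] at ha
      rcases ha with rfl | rfl <;> rfl
    omega

theorem block_fst {F : List (List (ℕ × Bool))} {p i j : ℕ} {e : ℕ × ℕ × ℕ}
    (h : e ∈ ([(tip p i j false, i * p + j, i * p + j),
      (tip p i j true, i * p + (j + 1) % p, i * p + j)] ++
      (tipTrips F p i j false ++ tipTrips F p i j true))) : ∃ b, e.1 = tip p i j b := by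
  simp only [List.mem_append, List.mem_cons, List.not_mem_nil, or_false] at h
  rcases h with (rfl | rfl) | h | h
  · exact ⟨_, rfl⟩
  · exact ⟨_, rfl⟩
  · exact ⟨_, (tipTrips_fst h).1⟩
  · exact ⟨_, (tipTrips_fst h).1⟩

theorem okt : OktStmt := by
  intro F p
  refine ⟨?_, ?_⟩
  · unfold trips
    rw [List.nodup_flatMap]
    refine ⟨?_, ?_⟩
    · intro i hi
      rw [List.mem_range] at hi
      rw [List.nodup_flatMap]
      refine ⟨fun j hj => block_nodup F hi (List.mem_range.mp hj), ?_⟩
      refine List.Pairwise.imp_of_mem ?_ (List.nodup_range (n := p))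
      intro j j' hj hj' hne e he he'
      rw [List.mem_range] at hj hj'
      obtain ⟨b, hb⟩ := block_fst he
      obtain ⟨b', hb'⟩ := block_fst he'
      exact hne (tip_inj hj hj' (hb.symm.trans hb')).2.1
    · refine List.Pairwise.imp_of_mem ?_ (List.nodup_range (n := p))
      intro i i' hi hi' hne e he he'
      rw [List.mem_flatMap] at he he'
      obtain ⟨j, hj, he⟩ := he
      obtain ⟨j', hj', he'⟩ := he'
      rw [List.mem_range] at hj hj'
      obtain ⟨b, hb⟩ := block_fst he
      obtain ⟨b', hb'⟩ := block_fst he'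
      exact hne (tip_inj hj hj' (hb.symm.trans hb')).1
  · intro e he
    obtain ⟨i, hi, j, hj, rfl | rfl | ⟨b, -, rfl⟩ | ⟨b, k, hk, rfl⟩⟩ := mem_trips.mp he
    · have := lt_sq hi hj
      exact ⟨tip_lt _ hi hj, by show i * p + j < _; omega, by show i * p + j < _; omega⟩
    · have := lt_sq hi hj
      have h2 := lt_sq hi (Nat.mod_lt (j + 1) (by omega : 0 < p))
      exact ⟨tip_lt _ hi hj, by show i * p + (j + 1) % p < _; omega,
        by show i * p + j < _; omega⟩
    · have : p ≤ p * p := Nat.le_mul_self p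
      exact ⟨tip_lt _ hi hj, by show p * p + j < _; omega, by show p * p + j < _; omega⟩
    · exact ⟨tip_lt _ hi hj, sq_eq hk, sq_eq hk⟩

end Pool.Agent.PDT.H43
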