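import Mathlib
import Pool.Agent.Helper43_PDT.Mem

set_option autoImplicit false

namespace Pool.Agent.PDT.H43

open Pool.Agent.PDT

/-- the first wheel triple -/
def T1 (p i j : ℕ) : ℕ × ℕ × ℕ := (tip p i j false, i * p + j, i * p + j)

/-- the second wheel triple -/
def T2 (p i j : ℕ) : ℕ × ℕ × ℕ := (tip p i j true, i * p + (j + 1) % p, i * p + j)

theorem T_ne {p i j i' j' : ℕ} (hj : j < p) (hj' : j' < p) : T1 p i j ≠ T2 p i' j' := fun h =>
  absurd (tip_inj hj hj' (congrArg Prod.fst h)).2.2 (by simp)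

theorem sou : SouStmt := by
  classical
  rintro F p hF ⟨M, hML, hM1, hM2, hM3⟩
  -- third components
  have third : ∀ i < p, ∀ j < p, T1 p i j ∈ M ∨ T2 p i j ∈ M := by
    intro i hi j hj
    have hs := lt_sq hi hj
    obtain ⟨e, ⟨he, he2⟩, -⟩ := hM3 (i * p + j) (by omega)
    obtain ⟨i', hi', j', hj', rfl | rfl | ⟨b, -, rfl⟩ | ⟨b, k, hk, rfl⟩⟩ :=
      mem_trips.mp (hML e he)
    · obtain ⟨rfl, rfl⟩ := pair_inj hj' hj he2
      exact Or.inl he
    · obtain ⟨rfl, rfl⟩ := pair_inj hj' hj he2
      exact Or.inr he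
    · have h3 : p * p + j' = i * p + j := he2
      omega
    · have h3 : p * p + p + k = i * p + j := he2
      omega
  have third' : ∀ i < p, ∀ j < p, T1 p i j ∈ M → T2 p i j ∈ M → False := by
    intro i hi j hj h1 h2
    have hs := lt_sq hi hj
    obtain ⟨e, -, hu⟩ := hM3 (i * p + j) (by omega)
    exact T_ne hj hj ((hu _ ⟨h1, rfl⟩).trans (hu _ ⟨h2, rfl⟩).symm)
  -- second components
  have second : ∀ i < p, ∀ j, j + 1 < p → (T1 p i (j + 1) ∈ M ↔ T2 p i j ∉ M) := by
    intro i hi j hj
    have hj0 : j < p := by omega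
    have hmod : (j + 1) % p = j + 1 := Nat.mod_eq_of_lt hj
    have hs := lt_sq hi hj
    obtain ⟨e, ⟨he, he2⟩, hu⟩ := hM2 (i * p + (j + 1)) (by omega)
    constructor
    · intro h1 h2
      have h3 : (T2 p i j).2.1 = i * p + (j + 1) := by
        show i * p + (j + 1) % p = i * p + (j + 1)
        rw [hmod]
      exact T_ne hj hj0 ((hu _ ⟨h1, rfl⟩).trans (hu _ ⟨h2, h3⟩).symm)
    · intro h2
      obtain ⟨i', hi', j', hj', rfl | rfl | ⟨b, -, rfl⟩ | ⟨b, k, hk, rfl⟩⟩ :=
        mem_trips.mp (hML e he)
      · obtain ⟨rfl, h5⟩ := pair_inj hj' hj he2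
        subst h5
        exact he
      · exfalso
        obtain ⟨rfl, h5⟩ := pair_inj (Nat.mod_lt (j' + 1) (by omega : 0 < p)) hj he2
        have h6 : j' + 1 < p := by
          by_contra hc
          have h7 : j' + 1 = p := by omega
          rw [h7, Nat.mod_self] at h5
          omega
        rw [Nat.mod_eq_of_lt h6] at h5
        have h7 : j' = j := by omega
        subst h7
        exact h2 he
      · exfalso
        have h3 : p * p + j' = i * p + (j + 1) := he2
        omega
      · exfalso
        have h3 : p * p + p + k = i * p + (j + 1) := he2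
        omega
  -- going round
  have round : ∀ i < p, ∀ j < p, (T1 p i j ∈ M ↔ T1 p i 0 ∈ M) := by
    intro i hi j
    induction j with
    | zero => intro _; exact Iff.rfl
    | succ j ih =>
      intro hj
      have hj0 : j < p := by omega
      rw [second i hi j hj, ← ih hj0]
      constructor
      · intro h
        exact (third i hi j hj0).resolve_right h
      · intro h1 h2
        exact third' i hi j hj0 h1 h2
  refine ⟨fun i => decide (T1 p i 0 ∈ M), ?_⟩
  intro C hC
  obtain ⟨j, hj, hjC⟩ := List.getElem_of_mem hC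
  have hjp : j < p := lt_of_lt_of_le hj hF
  have hget : F[j]? = some C := by
    rw [List.getElem?_eq_getElem hj, hjC]
  have hpp : p ≤ p * p := Nat.le_mul_self p
  obtain ⟨e, ⟨he, he2⟩, -⟩ := hM2 (p * p + j) (by omega)
  obtain ⟨i, hi, j', hj', rfl | rfl | ⟨b, hb, rfl⟩ | ⟨b, k, hk, rfl⟩⟩ := mem_trips.mp (hML e he)
  · exfalso
    have h3 : i * p + j' = p * p + j := he2
    have := lt_sq hi hj'
    omega
  · exfalso
    have h3 : i * p + (j' + 1) % p = p * p + j := he2
    have := lt_sq hi (Nat.mod_lt (j' + 1) (by omega : 0 < p))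
    omega
  · have h3 : p * p + j' = p * p + j := he2
    have h4 : j' = j := by omega
    subst h4
    refine ⟨(i, b), hb C hget, ?_⟩
    show decide (T1 p i 0 ∈ M) = b
    obtain ⟨e0, -, hu⟩ := hM1 (tip p i j' b) (tip_lt b hi hj')
    have hs := lt_sq hi hj'
    cases b
    · have h5 : T1 p i j' ∉ M := by
        intro h6
        have h7 := congrArg (fun x : ℕ × ℕ × ℕ => x.2.2) ((hu _ ⟨h6, rfl⟩).trans (hu _ ⟨he, rfl⟩).symm)
        have h8 : i * p + j' = p * p + j' := h7
        omega
      rw [round i hi j' hj'] at h5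
      simpa using h5
    · have h5 : T2 p i j' ∉ M := by
        intro h6
        have h7 := congrArg (fun x : ℕ × ℕ × ℕ => x.2.2) ((hu _ ⟨h6, rfl⟩).trans (hu _ ⟨he, rfl⟩).symm)
        have h8 : i * p + j' = p * p + j' := h7
        omega
      have h6 : T1 p i j' ∈ M := (third i hi j' hj').resolve_right h5
      rw [round i hi j' hj'] at h6
      simpa using h6
  · exfalso
    have h3 : p * p + p + k = p * p + j := he2
    omega

end Pool.Agent.PDT.H43
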